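import Mathlib
import Pool.Agent.V5helper58.TW.Final

/-!
# Lang and Silverman's lower bound for almost all quadratic twists of every elliptic curve

For `a, b` in a number field `K` of degree `n`, with `4 a³ + 27 b² ≠ 0`, let `E` be the elliptic
curve `y² = x³ + a x + b`, and `E_d` its quadratic twist `y² = x³ + a d² x + b d³`, `d ∈ K`,
`d ≠ 0`.  We let `d` run through the algebraic integers `∑ x_i ω_i`, where `ω` is any basis of
`𝓞 K` and the `x_i` are the integers from `1` to `X`; there are `X ^ n` of them.  It is assumed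
that `X` is at least `H(j) ^ θ`, where `H(j)` is the absolute height of the `j`-invariant of `E` and
`θ > 0` is arbitrarily small.  The lower bound of Lang and Silverman with constant `c` for `E_d`
(`LangSilverman c (a d²) (b d³)`) says that for all `g`, all polarizations `M` and all points `P`
of infinite order of `E_d ^ g` over `K` the absolute canonical height of `P` is at least `c` times
`1`, plus the height of `j`, plus the sum of `log N v / n` over all primes `v` of bad reduction of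
`E_d`.

The theorem says that for EVERY `E` the bound with constant `c / k ^ 6` holds for all the `d`
except for at most `(3/4) ^ k (2 X) ^ n` of them, for every `k ≥ 1`; here `c > 0` does not depend on
`E`, `X`, `k` and `ω`, and for `h(j) > A` it depends only on `θ` and on a bound for the degree
of `K`.  So all moments of the quotient of the two sides, over the twists in the box, are bounded
uniformly in `E`.  Part (3) is the special case `K = ℚ`, with `d = 1, 2, …, X`.

`SPt a b` is the group of the points over `K` of `y² = x³ + a x + b`, `sht P` the height of the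
`x`-coordinate (relative to `K`), `chat P` the canonical height, the limit of
`sht (2 ^ k P) / 4 ^ k`, and `chatM M P` the canonical height of the point `P` of the `g`-th power
for the polarization given by the symmetric positive definite matrix `M`.

Proof. If the part of the height of `j` outside `6` is small, the bound holds for all twists
(`Pool.Agent.Y725.LS.family'`).  If one pole `v ∤ 6` of `j` carries at least the part `η / k` of the
height, some `k²` of the first multiples of a point are close to each other in the group of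
components at `v`; their pairings at `v` are positive, and this gives the bound with constant
`c / k ^ 6` for all twists.  Otherwise, for the `d` in a box, the residue classes of `d` modulo
`k` of these poles are independent.  At least two fifths of the classes modulo a pole are such that
`- 2 a b d` is not a square in the completion, so that `E_d` has non-split reduction there and the
double of every point of `E_d` over `K` has non-singular reduction.  So for all but
`(3/4) ^ k (2 X) ^ n` of the `d` a tenth of the height of `j` is at poles of this kind, and this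
gives the bound.
-/

set_option autoImplicit false

namespace Pool.Agent.Results.MP_9a3c31_nt.AlmostAllTwistsOfEveryCurve

open NumberField IsDedekindDomain Pool.Agent.TH942 Pool.Agent.TH910.LS

section Defs

variable {K : Type} [Field K] [NumberField K]

/-- the `j`-invariant of `y² = x³ + a x + b` -/
noncomputable def jInv (a b : K) : K := 6912 * a ^ 3 / (4 * a ^ 3 + 27 * b ^ 2)

/-- The absolute logarithmic height. -/
noncomputable def ht (x : K) : ℝ := Height.logHeight₁ x / Module.finrank ℚ K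

/-- The `v`-adic absolute value of the discriminant is not a twelfth power of an absolute value, or
`j` has a pole at `v`. All primes `v` of bad reduction of `y² = x³ + a x + b` which do not divide
`6` have this property. -/
def Bad (a b : K) (v : HeightOneSpectrum (𝓞 K)) : Prop :=
  (∀ u : K, FinitePlace.mk v (4 * a ^ 3 + 27 * b ^ 2) ≠ FinitePlace.mk v u ^ 12) ∨
    1 < FinitePlace.mk v (jInv a b)

open Classical in
/-- The lower bound of Lang and Silverman with constant `c` for all powers, with all polarizations,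
of the elliptic curve `y² = x³ + a x + b` over `K`. -/
def LangSilverman (c : ℝ) (a b : K) : Prop :=
  ∀ S : Finset (HeightOneSpectrum (𝓞 K)), (∀ v ∈ S, Bad a b v) →
    ∀ (g : ℕ) (M : Matrix (Fin g) (Fin g) ℤ), (M.map (Int.cast : ℤ → ℝ)).PosDef →
    ∀ P : Fin g → SPt a b, ¬ IsOfFinAddOrder P →
      c * (1 + ht (jInv a b) +
        (∑ v ∈ S, Real.log (Ideal.absNorm v.asIdeal)) / Module.finrank ℚ K) ≤
        chatM M P / Module.finrank ℚ K

/-- the coordinates `x` in the box `1 ≤ x i ≤ X` such that the bound with constant `c` fails for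
the twist of `y² = x³ + a x + b` by `d = ∑ x i ω i` -/
def Exc (c : ℝ) (a b : K) {ι : Type} [Fintype ι] (ω : Module.Basis ι ℤ (𝓞 K)) (X : ℕ) :
    Set (ι → ℕ) :=
  {x | (∀ i, 1 ≤ x i ∧ x i ≤ X) ∧ ¬ LangSilverman c
    (a * ((∑ i, x i • ω i : 𝓞 K) : K) ^ 2) (b * ((∑ i, x i • ω i : 𝓞 K) : K) ^ 3)}

end Defs

open Pool.Agent.V5helper58.TW

open Classical in
theorem ls_mono {K : Type} [Field K] [NumberField K] {c c' : ℝ} {a b : K}
    (h : LangSilverman c a b) (hc : c' ≤ c) : LangSilverman c' a b := by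
  have h1 : LS c a b := h
  exact h1.mono hc

theorem part_one (D : ℕ) (θ : ℝ) (hθ : 0 < θ) : ∃ c A : ℝ, 0 < c ∧
    ∀ (K : Type) [Field K] [NumberField K], Module.finrank ℚ K ≤ D → ∃ c₀ : ℝ, 0 < c₀ ∧
    ∀ a b : K, 4 * a ^ 3 + 27 * b ^ 2 ≠ 0 →
    ∀ (ι : Type) [Fintype ι] (ω : Module.Basis ι ℤ (𝓞 K)) (X k : ℕ), 1 ≤ k →
      θ * ht (jInv a b) ≤ Real.log X →
      (Exc ((if A < ht (jInv a b) then c else c₀) / (k : ℝ) ^ 6) a b ω X).Finite ∧
      ((Exc ((if A < ht (jInv a b) then c else c₀) / (k : ℝ) ^ 6) a b ω X).ncard : ℝ) ≤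
        (3 / 4) ^ k * (2 * X) ^ Fintype.card ι := by
  classical
  obtain ⟨c, A, hc, h⟩ := main1 D hθ
  refine ⟨c, A, hc, fun K _ _ hK => ?_⟩
  obtain ⟨c₀, hc₀, h⟩ := h K hK
  refine ⟨c₀, hc₀, fun a b hD ι _ ω X k hk hX => ?_⟩
  have h1 := h a b hD ι ω X k hk hX
  have e1 : Exc ((if A < ht (jInv a b) then c else c₀) / (k : ℝ) ^ 6) a b ω X =
      (((Fintype.piFinset fun _ : ι => Finset.Icc 1 X).filter fun x : ι → ℕ =>
        ¬ LS ((if A < Height.logHeight₁ (jinv a b) / Module.finrank ℚ K then c else c₀) / (k : ℝ) ^ 6)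
          (a * ((∑ i, x i • ω i : 𝓞 K) : K) ^ 2) (b * ((∑ i, x i • ω i : 𝓞 K) : K) ^ 3) :
            Finset (ι → ℕ)) : Set (ι → ℕ)) := by
    ext x
    simp only [Exc, Set.mem_setOf_eq, Finset.coe_filter, Fintype.mem_piFinset, Finset.mem_Icc]
    rfl
  rw [e1]
  refine ⟨Finset.finite_toSet _, ?_⟩
  rw [Set.ncard_coe_finset]
  exact h1

theorem part_two (D : ℕ) (θ ε : ℝ) (hθ : 0 < θ) (hε : 0 < ε) : ∃ c A : ℝ, 0 < c ∧
    ∀ (K : Type) [Field K] [NumberField K], Module.finrank ℚ K ≤ D → ∃ c₀ : ℝ, 0 < c₀ ∧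
    ∀ a b : K, 4 * a ^ 3 + 27 * b ^ 2 ≠ 0 →
    ∀ (ι : Type) [Fintype ι] (ω : Module.Basis ι ℤ (𝓞 K)) (X : ℕ),
      θ * ht (jInv a b) ≤ Real.log X →
      (Exc (if A < ht (jInv a b) then c else c₀) a b ω X).Finite ∧
      ((Exc (if A < ht (jInv a b) then c else c₀) a b ω X).ncard : ℝ) ≤
        ε * (X : ℝ) ^ Fintype.card ι := by
  obtain ⟨c, A, hc, h⟩ := part_one D θ hθ
  obtain ⟨k, hk⟩ := exists_pow_lt_of_lt_one (show 0 < ε / 2 ^ D by positivity)
    (show (3 / 4 : ℝ) < 1 by norm_num)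
  obtain ⟨m, hm⟩ : ∃ m : ℕ, m = k + 1 := ⟨_, rfl⟩
  have hm1 : 1 ≤ m := by omega
  have hmε : (3 / 4 : ℝ) ^ m ≤ ε / 2 ^ D := by
    rw [hm, pow_succ]
    have : (0 : ℝ) ≤ (3 / 4) ^ k := by positivity
    linarith
  have hm0 : (0 : ℝ) < (m : ℝ) ^ 6 := by positivity
  refine ⟨c / (m : ℝ) ^ 6, A, by positivity, fun K _ _ hK => ?_⟩
  obtain ⟨c₀, hc₀, h⟩ := h K hK
  refine ⟨c₀ / (m : ℝ) ^ 6, by positivity, fun a b hD ι _ ω X hX => ?_⟩
  have h1 := h a b hD ι ω X m hm1 hX
  have e1 : (if A < ht (jInv a b) then c / (m : ℝ) ^ 6 else c₀ / (m : ℝ) ^ 6) =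
      (if A < ht (jInv a b) then c else c₀) / (m : ℝ) ^ 6 := by
    split_ifs <;> rfl
  rw [e1]
  refine ⟨h1.1, h1.2.trans ?_⟩
  have hcard : Fintype.card ι = Module.finrank ℚ K := by
    rw [← RingOfIntegers.rank, Module.finrank_eq_card_basis ω]
  rw [mul_pow]
  calc (3 / 4 : ℝ) ^ m * (2 ^ Fintype.card ι * (X : ℝ) ^ Fintype.card ι)
      ≤ ε / 2 ^ D * (2 ^ D * (X : ℝ) ^ Fintype.card ι) := by
        refine mul_le_mul hmε ?_ (by positivity) (by positivity)
        refine mul_le_mul_of_nonneg_right ?_ (by positivity)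
        exact pow_le_pow_right₀ (by norm_num) (by rw [hcard]; exact hK)
    _ = ε * (X : ℝ) ^ Fintype.card ι := by field_simp

/-- the basis `1` of the integers -/
noncomputable def oneBasis : Module.Basis Unit ℤ (𝓞 ℚ) :=
  (Module.Basis.singleton Unit ℤ).map
    Rat.ringOfIntegersEquiv.symm.toAddEquiv.toIntLinearEquiv

theorem oneBasis_apply (i : Unit) : oneBasis i = 1 := by
  rw [oneBasis, Module.Basis.map_apply, Module.Basis.singleton_apply]
  exact map_one Rat.ringOfIntegersEquiv.symm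

theorem part_three (θ : ℝ) (hθ : 0 < θ) : ∃ c : ℝ, 0 < c ∧
    ∀ a b : ℚ, 4 * a ^ 3 + 27 * b ^ 2 ≠ 0 → ∀ X k : ℕ, 1 ≤ k → θ * ht (jInv a b) ≤ Real.log X →
      ({d : ℕ | 1 ≤ d ∧ d ≤ X ∧
        ¬ LangSilverman (c / (k : ℝ) ^ 6) (a * (d : ℚ) ^ 2) (b * (d : ℚ) ^ 3)}.ncard : ℝ) ≤
        (3 / 4) ^ k * (2 * X) := by
  classical
  obtain ⟨c, A, hc, h⟩ := part_one 1 θ hθ
  obtain ⟨c₀, hc₀, h⟩ := h ℚ (by simp)
  refine ⟨min c c₀, lt_min hc hc₀, fun a b hD X k hk hX => ?_⟩
  obtain ⟨h1, h2⟩ := h a b hD Unit oneBasis X k hk hX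
  rw [Fintype.card_unit, pow_one] at h2
  refine le_trans ?_ h2
  apply Nat.cast_le.2
  refine Set.ncard_le_ncard_of_injOn (fun d : ℕ => fun _ : Unit => d) ?_ ?_ h1
  · rintro d ⟨hd1, hd2, hd3⟩
    refine ⟨fun _ => ⟨hd1, hd2⟩, fun hcon => hd3 ?_⟩
    have e1 : ((∑ i : Unit, d • oneBasis i : 𝓞 ℚ) : ℚ) = (d : ℚ) := by
      rw [Fintype.sum_unique, oneBasis_apply, nsmul_one]
      exact map_natCast (algebraMap (𝓞 ℚ) ℚ) d
    rw [e1] at hcon
    refine ls_mono hcon ?_
    refine div_le_div_of_nonneg_right ?_ (by positivity)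
    split_ifs
    · exact min_le_left _ _
    · exact min_le_right _ _
  · intro d _ d' _ hdd
    exact congrFun hdd ()

open Classical in
/-- **Main theorem.** Let `D ≥ 1` and `θ > 0`.
(1) There are `c > 0` and `A`, and for every number field `K` of degree `n ≤ D` there is `c₀ > 0`,
such that for every elliptic curve `y² = x³ + a x + b` over `K`, every basis `ω` of `𝓞 K`, every
`X ≥ H(j) ^ θ` and every `k ≥ 1` the lower bound of Lang and Silverman with the constant
`c' / k ^ 6`, `c' = c` if `h(j) > A` and `c' = c₀` if not, holds for the twist by `∑ x_i ω_i` for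
all `x`, `1 ≤ x_i ≤ X`, except for at most `(3/4) ^ k (2 X) ^ n` of them.
(2) For every `ε > 0` there are such constants for which there are at most `ε X ^ n` exceptions.
(3) For `K = ℚ` the bound with constant `c / k ^ 6`, where `c > 0` depends only on `θ`, holds for
the twists by all `d ≤ X` except for at most `(3/4) ^ k (2 X)`.
(4) `chat` is the limit of `sht (2 ^ k P) / 4 ^ k`. -/
theorem result :
    (∀ (D : ℕ) (θ : ℝ), 0 < θ → ∃ c A : ℝ, 0 < c ∧
      ∀ (K : Type) [Field K] [NumberField K], Module.finrank ℚ K ≤ D → ∃ c₀ : ℝ, 0 < c₀ ∧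
      ∀ a b : K, 4 * a ^ 3 + 27 * b ^ 2 ≠ 0 →
      ∀ (ι : Type) [Fintype ι] (ω : Module.Basis ι ℤ (𝓞 K)) (X k : ℕ), 1 ≤ k →
        θ * ht (jInv a b) ≤ Real.log X →
        (Exc ((if A < ht (jInv a b) then c else c₀) / (k : ℝ) ^ 6) a b ω X).Finite ∧
        ((Exc ((if A < ht (jInv a b) then c else c₀) / (k : ℝ) ^ 6) a b ω X).ncard : ℝ) ≤
          (3 / 4) ^ k * (2 * X) ^ Fintype.card ι) ∧
    (∀ (D : ℕ) (θ ε : ℝ), 0 < θ → 0 < ε → ∃ c A : ℝ, 0 < c ∧
      ∀ (K : Type) [Field K] [NumberField K], Module.finrank ℚ K ≤ D → ∃ c₀ : ℝ, 0 < c₀ ∧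
      ∀ a b : K, 4 * a ^ 3 + 27 * b ^ 2 ≠ 0 →
      ∀ (ι : Type) [Fintype ι] (ω : Module.Basis ι ℤ (𝓞 K)) (X : ℕ),
        θ * ht (jInv a b) ≤ Real.log X →
        (Exc (if A < ht (jInv a b) then c else c₀) a b ω X).Finite ∧
        ((Exc (if A < ht (jInv a b) then c else c₀) a b ω X).ncard : ℝ) ≤
          ε * (X : ℝ) ^ Fintype.card ι) ∧
    (∀ θ : ℝ, 0 < θ → ∃ c : ℝ, 0 < c ∧
      ∀ a b : ℚ, 4 * a ^ 3 + 27 * b ^ 2 ≠ 0 → ∀ X k : ℕ, 1 ≤ k →
        θ * ht (jInv a b) ≤ Real.log X →
        ({d : ℕ | 1 ≤ d ∧ d ≤ X ∧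
          ¬ LangSilverman (c / (k : ℝ) ^ 6) (a * (d : ℚ) ^ 2) (b * (d : ℚ) ^ 3)}.ncard : ℝ) ≤
          (3 / 4) ^ k * (2 * X)) ∧
    (∀ (K : Type) [Field K] [NumberField K] (a b : K), 4 * a ^ 3 + 27 * b ^ 2 ≠ 0 →
      ∀ P : SPt a b, Filter.Tendsto (fun k : ℕ => sht ((2 ^ k : ℕ) • P) / 4 ^ k) Filter.atTop
        (nhds (chat P))) :=
  ⟨part_one, part_two, part_three, fun _ _ _ _ _ hD P => (chat_spec hD).1 P⟩

end Pool.Agent.Results.MP_9a3c31_nt.AlmostAllTwistsOfEveryCurve
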