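import Mathlib
import Pool.Agent.V5helper58.LP.Full

/-!
# Lang and Silverman's lower bound for forms of powers if a few places carry a part of the height

`E : y² = x³ + a x + b` is an elliptic curve over a number field `K` of degree at most `D`, with
`a`, `b` integral of height at most `κ (1 + h(j))`.  A finite Galois extension `L` of `K` and a
representation `ρ` of its group by integral matrices of size `g` define an abelian variety `A` over
`K`, the form of `E ^ g` with `A(K) = {P ∈ E(L) ^ g | ρ(σ) σ(P) = P for all σ}` (`FixedPt ρ P`);
for `g = 1` these are `E` and its quadratic twists.  A symmetric positive definite integral matrix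
`M` with `ρ(σ)ᵀ M ρ(σ) = M` (`Polar ρ M`) is a polarization of `A` over `K`; the corresponding
absolute canonical height is `chatM M P / [L : ℚ]`.

Let `B` be a finite set of finite places of `K`, which may contain places above `2` and `3`, and
suppose that the infinite places and the places in `B` together contribute at least the part
`l h(j)`, `0 < l ≤ 1`, to the height of `j`.  Nothing is assumed about all other places: the number
and the orders of the other poles of `j` and the Szpiro ratio are arbitrary.  Then the lower bound
of Lang and Silverman, with the ramification term, holds with the constant `c l ^ 6 / 625 ^ |B|` if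
`l h(j)` is larger than `A`, and with a constant `c₀(l) > 0` otherwise; `c` and `A` depend only on
`D`, `g` and `κ`.  So for every `s` and `l` there is one constant for all curves for which the
infinite places and `s` finite places carry the part `l` of the height of `j`, and the loss is
smaller than every power of `h(j)` if, for example, `o(log h(j))` places carry half of it.

`Pts L a b` is the group of points over `L`, `sht P` the height of the `x`-coordinate, `chat P` the
canonical height, the limit of `sht (2 ^ k P) / 4 ^ k` (`ChatLim`), and `RamPrimes K T` says that
for each prime `v` in `T` there is `σ ≠ 1` in the inertia group.  `logNorms T` is the sum of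
`log N v`, `v ∈ T`, and `absH` is the absolute logarithmic height.  `DenseOrbit ρ P` says that no
non-zero homomorphism from `E ^ g` to `E` given by integers kills, modulo torsion, all `φ(P)`, `φ`
an integral matrix commuting with `ρ`, that is an endomorphism of `A` over `K`.  `Generates P` says
that `σ(P) ≠ P` for `σ ≠ 1`.

Proof.  At a pole of `j` not above `6` there are 25 cells such that the canonical local pairing of
two points in the same cell is at least `(log |j|_v) / 32`, and at every place there are boundedly
many cells such that the pairing in the same cell is at least a multiple of the size of the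
duplication map minus a constant.  By the pigeonhole principle many of the first `25 ^ |B| n`
(or `C n`) multiples of `P` are in the same cell at all the places considered.  At all other poles
the mean energy of `n` points is at least `- (log |j|_v) / (6 (n - 1))`, by the positivity of the
periodic Bernoulli kernel, and this is small against the part `l` for large `n`.
-/

set_option autoImplicit false

open Pool.Agent.TH910.LS Pool.Agent.Y725.LS NumberField IsDedekindDomain

theorem Pool.Agent.Results.MP_9a3c31_nt.FewLargePlaces.result
    (D g : ℕ) (hg : 0 < g) (κ : ℝ) (hκ : 0 ≤ κ) :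
    ∃ c A : ℝ, 0 < c ∧ ∀ l : ℝ, 0 < l → l ≤ 1 → ∃ c₀ : ℝ, 0 < c₀ ∧
    ∀ (K : Type) [Field K] [NumberField K], Module.finrank ℚ K ≤ D →
    ∀ a b : 𝓞 K, 4 * (a : K) ^ 3 + 27 * (b : K) ^ 2 ≠ 0 →
      absH (a : K) + absH (b : K) ≤ κ * (1 + absH (jinv (a : K) b)) →
    ∀ B : Finset (FinitePlace K),
      l * Height.logHeight₁ (jinv (a : K) b) ≤
        ∑ v : InfinitePlace K, (v.mult : ℝ) * Real.posLog (v (jinv (a : K) b)) +
          ∑ v ∈ B, Real.posLog (v (jinv (a : K) b)) →
    ∀ (L : Type) [Field L] [NumberField L] [Algebra K L] [IsGalois K L] [DecidableEq L],
      ChatLim L a b ∧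
      ∀ (ρ : (L ≃ₐ[K] L) →* Matrix (Fin g) (Fin g) ℤ) (M : Matrix (Fin g) (Fin g) ℤ)
        (P : Fin g → Pts L a b) (T : Finset (HeightOneSpectrum (𝓞 L))),
        Polar ρ M → FixedPt ρ P → RamPrimes K T →
        (Generates P ∧ ¬ IsOfFinAddOrder P) ∨ (Faithful ρ ∧ DenseOrbit ρ P) →
          (if A < l * absH (jinv (a : K) b) then c * l ^ 6 / 625 ^ B.card else c₀) *
              (1 + absH (jinv (a : K) b) + logNorms T / Module.finrank ℚ L) ≤
            chatM M P / Module.finrank ℚ L := by
  obtain ⟨c, A, hc, h⟩ := Pool.Agent.V5helper58.LP.full_main D g hg κ hκ
  refine ⟨c, A, hc, fun l hl0 hl1 => ?_⟩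
  obtain ⟨c₀, hc₀, h⟩ := h l hl0 hl1
  exact ⟨c₀, hc₀, fun K _ _ hK a b hab hκ B hB L _ _ _ _ _ => ⟨chatLim a b hab L,
    fun ρ M P T hM hP hT hor => h K hK a b hab hκ L ρ M P T hM hP hor hT B hB⟩⟩
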