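import Pool.Agent.Results.MP_9a3c31_nt.EveryOneParameterFamily
import Pool.Agent.V5helper64.NR.Sets

/-!
# Lang and Silverman's lower bound at the arguments of one-parameter families near a given point

Let `J = A / D` be a non-constant rational function over `ℚ`. The starting file `EveryOneParameterFamily` shows the
lower bound of Lang and Silverman, for all elliptic curves of invariant `J (s : t)` over all number fields of bounded degree
and for all forms of their `g`-th powers, at all rational arguments `(s : t)` of height at most `B` but `O(B ^ ε)`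
(`O(B ^ (1 + ε))` if `J` has one pole only), and at all integral arguments `|t| ≤ B` but `O(B ^ ε)`. Nothing is said there
about the arguments near a given point.

Let `φ` be ANY map from the pairs of integers `(s, t)` to a metric space, for example `φ(s, t) = s / t` with values in `ℝ` or
`ℚ_p`, or the invariant `J (s : t)` itself.

**Theorem.** (1) There is a set `E` of Hausdorff dimension zero such that for all points `ξ` outside `E`, all exponents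
`τ > 0` and all `N`, `d`, `g`, `κ` there is a constant `c > 0` with the following property: for ALL rational functions `J` of
degree `N` with at least two poles and all `M`, the lower bound with the constant `c` holds at all but finitely many
rational arguments `(s : t)` with `dist (φ(s, t)) ξ ≤ M max(|s|, |t|) ^ (-τ)`; and for ALL rational functions `J` of degree
`N` it holds at all but finitely many integral arguments `t` with `dist (φ(t, 1)) ξ ≤ M |t| ^ (-τ)`. The set `E` does not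
depend on `J`, `N`, `d`, `g`, `κ`, `τ`, `M`.

(2) The same for the rational arguments and ALL rational functions `J` of degree `N`, for given `τ > 0` and all `ξ`
outside a set of Hausdorff dimension at most `1 / τ`.

(3) For almost all real `ξ`, all `τ > 1` and all `N`, `d`, `g`, `κ` there is `c > 0` such that for ALL rational functions `J`
of degree `N` and all `M` the lower bound holds at all but finitely many `s / t` with `|ξ - s / t| ≤ M t ^ (-τ)`. By Dirichlet's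
theorem there are infinitely many such `s / t` if `M = 1`, `τ ≤ 2` and `ξ` is irrational.

Proof. Covering argument: the points `ξ` near infinitely many members of a set with `O(B ^ s)` members of height at
most `B` form a set of dimension at most `s / τ` (helper559, `NR.Sets`); the constants are made independent of `J` by
taking the union over all `J` before the intersection over `ε`.
-/

set_option autoImplicit false

namespace Pool.Agent.Results.MP_9a3c31_nt.MembersNearAPoint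

open Polynomial NumberField MeasureTheory
open EveryOneParameterFamily
open Pool.Agent.TH910.LS (absH jinv)

/-- the height `max(|s|, |t|)` of the argument `(s : t)`, `s` and `t` coprime -/
noncomputable def ht (P : ℤ × ℤ) : ℝ := max |(P.1 : ℝ)| |(P.2 : ℝ)|

theorem countable_poly : Countable ℤ[X] := by
  have h : Countable (ℕ →₀ ℤ) := inferInstance
  exact Function.Injective.countable
    (f := fun p : ℤ[X] => (⟨p.support, p.coeff, fun n => Polynomial.mem_support_iff⟩ : ℕ →₀ ℤ))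
    (fun p q h => by
      ext n
      exact DFunLike.congr_fun h n)

theorem holdsAt_mono {c : ℝ} {d g : ℕ} {κ κ' : ℝ} {j : ℚ} (h : κ ≤ κ') (H : HoldsAt c d g κ' j) :
    HoldsAt c d g κ j := by
  intro K _ _ hK a b hab hh hj L _ _ _ _ _
  refine H K hK a b hab (hh.trans (mul_le_mul_of_nonneg_right h ?_)) hj L
  have h2 : 0 ≤ absH (jinv (a : K) b) := by
    unfold absH
    exact div_nonneg (Height.zero_le_logHeight₁ _) (Nat.cast_nonneg _)
  linarith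

theorem ht_natAbs (P : ℤ × ℤ) : ht P = ((max P.1.natAbs P.2.natAbs : ℕ) : ℝ) := by
  unfold ht
  rw [Nat.cast_max, Nat.cast_natAbs, Nat.cast_natAbs, Int.cast_abs, Int.cast_abs]

theorem one_le_of_coprime {P : ℤ × ℤ} (h : IsCoprime P.1 P.2) : 1 ≤ max P.1.natAbs P.2.natAbs := by
  by_contra hcon
  have h1 : P.1 = 0 := by omega
  have h2 : P.2 = 0 := by omega
  rw [h1, h2] at h
  exact not_isCoprime_zero_zero h

theorem mem_pairs {P : ℤ × ℤ} (h : IsCoprime P.1 P.2) : P ∈ Pairs (max P.1.natAbs P.2.natAbs) := by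
  refine ⟨h, ?_, ?_⟩
  · rw [Int.abs_eq_natAbs]
    exact_mod_cast le_max_left _ _
  · rw [Int.abs_eq_natAbs]
    exact_mod_cast le_max_right _ _

theorem finite_pairs (B : ℕ) : (Pairs B).Finite := by
  refine ((Set.finite_Icc (-(B : ℤ)) B).prod (Set.finite_Icc (-(B : ℤ)) B)).subset ?_
  rintro P ⟨-, h1, h2⟩
  exact ⟨abs_le.1 h1, abs_le.1 h2⟩

/-- the exceptional arguments of height at most `T` for the function `A / D`: rational ones (`b = false`), if there are two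
poles, or integral ones (`b = true`) -/
def Fam (c : ℝ) (b : Bool) (N d g k : ℕ) (A D : ℤ[X]) (T : ℕ) : Set (ℤ × ℤ) :=
  {P | IsFunction N A D ∧ ((b = false ∧ 2 ≤ poleCount N D ∧ P ∈ Pairs T ∧ ¬ HoldsRat c d (g + 1) k N A D P) ∨
    (b = true ∧ P.2 = 1 ∧ |P.1| ≤ (T : ℤ) ∧ ¬ HoldsInt c d (g + 1) k A D P.1))}

theorem fam_mono {c : ℝ} {b : Bool} {N d g k : ℕ} {A D : ℤ[X]} {T T' : ℕ} (h : T ≤ T') :
    Fam c b N d g k A D T ⊆ Fam c b N d g k A D T' := by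
  have hT : (T : ℤ) ≤ T' := by exact_mod_cast h
  rintro P ⟨h0, h1 | h1⟩
  · exact ⟨h0, Or.inl ⟨h1.1, h1.2.1, ⟨h1.2.2.1.1, h1.2.2.1.2.1.trans hT, h1.2.2.1.2.2.trans hT⟩, h1.2.2.2⟩⟩
  · exact ⟨h0, Or.inr ⟨h1.1, h1.2.1, h1.2.2.1.trans hT, h1.2.2.2⟩⟩

theorem fam_finite {c : ℝ} {b : Bool} {N d g k : ℕ} {A D : ℤ[X]} (T : ℕ) : (Fam c b N d g k A D T).Finite := by
  refine ((finite_pairs T).union (((Set.finite_Icc (-(T : ℤ)) T)).image fun t => ((t, 1) : ℤ × ℤ))).subset ?_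
  rintro P ⟨-, h1 | h1⟩
  · exact Or.inl h1.2.2.1
  · exact Or.inr ⟨P.1, abs_le.1 h1.2.2.1, Prod.ext rfl h1.2.1.symm⟩

theorem fam_count {c : ℝ} {N d g k j : ℕ} {A D : ℤ[X]} (b : Bool)
    (hc : ∀ A D : ℤ[X], IsFunction N A D →
        (∃ C : ℝ, ∀ B : ℕ, 1 ≤ B →
          ({P | P ∈ Pairs B ∧ ¬ HoldsRat c d (g + 1) k N A D P}.ncard : ℝ) ≤
            C * (B : ℝ) ^ (1 + 1 / ((j : ℝ) + 1))) ∧
        (2 ≤ poleCount N D → ∃ C : ℝ, ∀ B : ℕ, 1 ≤ B →
          ({P | P ∈ Pairs B ∧ ¬ HoldsRat c d (g + 1) k N A D P}.ncard : ℝ) ≤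
            C * (B : ℝ) ^ (1 / ((j : ℝ) + 1))) ∧
        ∃ C : ℝ, ∀ B : ℕ, 1 ≤ B →
          ({t : ℤ | |t| ≤ (B : ℤ) ∧ ¬ HoldsInt c d (g + 1) k A D t}.ncard : ℝ) ≤
            C * (B : ℝ) ^ (1 / ((j : ℝ) + 1))) :
    ∃ C : ℝ, ∀ T : ℕ, 1 ≤ T → (Fam c b N d g k A D T).Finite ∧
      (((Fam c b N d g k A D T).ncard : ℕ) : ℝ) ≤ C * (T : ℝ) ^ (1 / ((j : ℝ) + 1)) := by
  by_cases hR : IsFunction N A D
  · obtain ⟨-, h2, C3, h3⟩ := hc A D hR
    cases b with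
    | false =>
      by_cases hp : 2 ≤ poleCount N D
      · obtain ⟨C2, h2⟩ := h2 hp
        refine ⟨C2, fun T hT => ⟨fam_finite T, le_trans ?_ (h2 T hT)⟩⟩
        have hsub : Fam c false N d g k A D T ⊆ {P | P ∈ Pairs T ∧ ¬ HoldsRat c d (g + 1) k N A D P} := by
          rintro P ⟨-, h1 | h1⟩
          · exact h1.2.2
          · exact absurd h1.1 (by decide)
        exact_mod_cast Set.ncard_le_ncard hsub ((finite_pairs T).subset fun P hP => hP.1)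
      · refine ⟨0, fun T hT => ⟨fam_finite T, ?_⟩⟩
        have hemp : Fam c false N d g k A D T = ∅ := by
          rw [Set.eq_empty_iff_forall_notMem]
          rintro P ⟨-, h1 | h1⟩
          · exact hp h1.2.1
          · exact absurd h1.1 (by decide)
        rw [hemp, Set.ncard_empty, Nat.cast_zero, zero_mul]
    | true =>
      refine ⟨C3, fun T hT => ⟨fam_finite T, le_trans ?_ (h3 T hT)⟩⟩
      have hfin : {t : ℤ | |t| ≤ (T : ℤ) ∧ ¬ HoldsInt c d (g + 1) k A D t}.Finite :=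
        (Set.finite_Icc (-(T : ℤ)) T).subset fun t ht => abs_le.1 ht.1
      have hmaps : ∀ P ∈ Fam c true N d g k A D T,
          P.1 ∈ {t : ℤ | |t| ≤ (T : ℤ) ∧ ¬ HoldsInt c d (g + 1) k A D t} := by
        rintro P ⟨-, h1 | h1⟩
        · exact absurd h1.1 (by decide)
        · exact h1.2.2
      have hinj : Set.InjOn Prod.fst (Fam c true N d g k A D T) := by
        rintro P ⟨-, h1 | h1⟩ Q ⟨-, h2 | h2⟩ he
        · exact absurd h1.1 (by decide)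
        · exact absurd h1.1 (by decide)
        · exact absurd h2.1 (by decide)
        · exact Prod.ext he (h1.2.1.trans h2.2.1.symm)
      exact_mod_cast Set.ncard_le_ncard_of_injOn _ hmaps hinj hfin
  · refine ⟨0, fun T hT => ⟨fam_finite T, ?_⟩⟩
    have hemp : Fam c b N d g k A D T = ∅ := by
      rw [Set.eq_empty_iff_forall_notMem]
      rintro P ⟨h, -⟩
      exact hR h
    rw [hemp, Set.ncard_empty, Nat.cast_zero, zero_mul]

theorem not_rat {c : ℝ} {d g : ℕ} {κ κ' : ℝ} (h : κ ≤ κ') {N : ℕ} {A D : ℤ[X]} {P : ℤ × ℤ}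
    (hP : ¬ HoldsRat c d g κ N A D P) : ¬ HoldsRat c d g κ' N A D P :=
  fun H => hP ⟨H.1, holdsAt_mono h H.2⟩

theorem not_int {c : ℝ} {d g : ℕ} {κ κ' : ℝ} (h : κ ≤ κ') {A D : ℤ[X]} {t : ℤ}
    (hP : ¬ HoldsInt c d g κ A D t) : ¬ HoldsInt c d g κ' A D t :=
  fun H => hP ⟨H.1, holdsAt_mono h H.2⟩

theorem part_one {Y : Type} [MetricSpace Y] (φ : ℤ × ℤ → Y) :
    ∃ E : Set Y, dimH E = 0 ∧ ∀ ξ : Y, ξ ∉ E → ∀ τ : ℝ, 0 < τ → ∀ (N d g : ℕ) (κ : ℝ), 0 < g → ∃ c : ℝ, 0 < c ∧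
      ∀ A D : ℤ[X], IsFunction N A D → ∀ M : ℝ,
        (2 ≤ poleCount N D → {P : ℤ × ℤ | IsCoprime P.1 P.2 ∧ dist (φ P) ξ ≤ M * ht P ^ (-τ) ∧
          ¬ HoldsRat c d g κ N A D P}.Finite) ∧
        {t : ℤ | dist (φ (t, 1)) ξ ≤ M * |(t : ℝ)| ^ (-τ) ∧ ¬ HoldsInt c d g κ A D t}.Finite := by
  have := countable_poly
  choose c hc0 hc using fun (N d g k j : ℕ) =>
    EveryOneParameterFamily.result.1 N d (g + 1) (k : ℝ) (1 / ((j : ℝ) + 1)) (Nat.succ_pos g) (Nat.cast_nonneg k)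
      (by positivity)
  obtain ⟨E, hE, hE'⟩ := Pool.Agent.V5helper64.NR.near_sets (W := ℤ × ℤ) (X := Y)
    (Y := Bool × ℕ × ℕ × ℕ × ℕ × ℤ[X] × ℤ[X])
    (F := fun j y T => Fam (c y.2.1 y.2.2.1 y.2.2.2.1 y.2.2.2.2.1 j) y.1 y.2.1 y.2.2.1 y.2.2.2.1 y.2.2.2.2.1
      y.2.2.2.2.2.1 y.2.2.2.2.2.2 T)
    (fun j y t t' htt => fam_mono htt)
    (fun j y => fam_count y.1 (hc y.2.1 y.2.2.1 y.2.2.2.1 y.2.2.2.2.1 j)) φ
  refine ⟨E, hE, fun ξ hξ τ hτ N d g κ hg => ?_⟩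
  obtain ⟨j, hj⟩ := hE' ξ hξ τ hτ
  obtain ⟨g, rfl⟩ : ∃ g' : ℕ, g = g' + 1 := ⟨g - 1, by omega⟩
  obtain ⟨k, hk⟩ := exists_nat_ge κ
  refine ⟨c N d g k j, hc0 N d g k j, fun A D hR M => ⟨fun hp => ?_, ?_⟩⟩
  · refine (hj (false, N, d, g, k, A, D) M).subset ?_
    rintro P ⟨h1, h2, h3⟩
    refine ⟨max P.1.natAbs P.2.natAbs, one_le_of_coprime h1,
      ⟨hR, Or.inl ⟨rfl, hp, mem_pairs h1, not_rat hk h3⟩⟩, ?_⟩
    rw [← ht_natAbs]
    exact h2
  · have h0 := (hj (true, N, d, g, k, A, D) M).preimage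
      (f := fun t : ℤ => ((t, 1) : ℤ × ℤ)) (fun a _ b _ hab => (Prod.ext_iff.1 hab).1)
    refine (h0.union (Set.finite_singleton 0)).subset ?_
    rintro t ⟨h1, h2⟩
    by_cases ht0 : t = 0
    · exact Or.inr ht0
    · left
      refine ⟨t.natAbs, by omega, ⟨hR, Or.inr ⟨rfl, rfl, ?_, not_int hk h2⟩⟩, ?_⟩
      · exact (Int.abs_eq_natAbs t).le
      · rw [Nat.cast_natAbs, Int.cast_abs]
        exact h1

theorem part_two {Y : Type} [MetricSpace Y] (φ : ℤ × ℤ → Y) (τ : ℝ) (hτ : 0 < τ) :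
    ∃ E : Set Y, dimH E ≤ ENNReal.ofReal (1 / τ) ∧ ∀ ξ : Y, ξ ∉ E →
        ∀ (N d g : ℕ) (κ : ℝ), 0 < g → ∃ c : ℝ, 0 < c ∧ ∀ A D : ℤ[X], IsFunction N A D → ∀ M : ℝ,
          {P : ℤ × ℤ | IsCoprime P.1 P.2 ∧ dist (φ P) ξ ≤ M * ht P ^ (-τ) ∧
            ¬ HoldsRat c d g κ N A D P}.Finite := by
  have := countable_poly
  choose c hc0 hc using fun (N d g k j : ℕ) =>
    EveryOneParameterFamily.result.1 N d (g + 1) (k : ℝ) (1 / ((j : ℝ) + 1)) (Nat.succ_pos g) (Nat.cast_nonneg k)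
      (by positivity)
  have key : ∀ (j : ℕ) (y : ℕ × ℕ × ℕ × ℕ × ℤ[X] × ℤ[X]), ∃ E : Set Y,
      dimH E ≤ ENNReal.ofReal ((1 + 1 / ((j : ℝ) + 1)) / τ) ∧ ∀ ξ : Y, ξ ∉ E → ∀ M : ℝ,
        {P : ℤ × ℤ | dist (φ P) ξ ≤ M * (max (ht P) 1) ^ (-τ) ∧ (IsFunction y.1 y.2.2.2.2.1 y.2.2.2.2.2 ∧
          IsCoprime P.1 P.2 ∧ ¬ HoldsRat (c y.1 y.2.1 y.2.2.1 y.2.2.2.1 j) y.2.1 (y.2.2.1 + 1) y.2.2.2.1 y.1
            y.2.2.2.2.1 y.2.2.2.2.2 P)}.Finite := by
    rintro j ⟨N, d, g, k, A, D⟩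
    refine Pool.Agent.R559.NP.near_dim (fun P => le_max_right _ _) (by positivity) hτ ?_ φ
    intro ε hε
    by_cases hR : IsFunction N A D
    · obtain ⟨⟨C, hC⟩, -⟩ := hc N d g k j A D hR
      refine ⟨max C 0, fun B hB => ?_⟩
      have hfl : 1 ≤ ⌊B⌋₊ := Nat.le_floor (by exact_mod_cast hB)
      have hsub : {P : ℤ × ℤ | (IsFunction N A D ∧ IsCoprime P.1 P.2 ∧
          ¬ HoldsRat (c N d g k j) d (g + 1) k N A D P) ∧ max (ht P) 1 ≤ B} ⊆
          {P | P ∈ Pairs ⌊B⌋₊ ∧ ¬ HoldsRat (c N d g k j) d (g + 1) k N A D P} := by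
        rintro P ⟨⟨-, h1, h2⟩, h3⟩
        have h4 : ht P ≤ B := (le_max_left _ _).trans h3
        rw [ht_natAbs] at h4
        have h5 : max P.1.natAbs P.2.natAbs ≤ ⌊B⌋₊ := Nat.le_floor h4
        refine ⟨⟨h1, ?_, ?_⟩, h2⟩
        · rw [Int.abs_eq_natAbs]
          exact_mod_cast (le_max_left _ _).trans h5
        · rw [Int.abs_eq_natAbs]
          exact_mod_cast (le_max_right _ _).trans h5
      have hfin : {P | P ∈ Pairs ⌊B⌋₊ ∧ ¬ HoldsRat (c N d g k j) d (g + 1) k N A D P}.Finite :=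
        (finite_pairs ⌊B⌋₊).subset fun P hP => hP.1
      refine ⟨hfin.subset hsub, ?_⟩
      have h1 : (({P : ℤ × ℤ | (IsFunction N A D ∧ IsCoprime P.1 P.2 ∧
          ¬ HoldsRat (c N d g k j) d (g + 1) k N A D P) ∧ max (ht P) 1 ≤ B}.ncard : ℕ) : ℝ) ≤
          ({P | P ∈ Pairs ⌊B⌋₊ ∧ ¬ HoldsRat (c N d g k j) d (g + 1) k N A D P}.ncard : ℝ) := by
        exact_mod_cast Set.ncard_le_ncard hsub hfin
      have hflr : (0 : ℝ) ≤ (⌊B⌋₊ : ℝ) := Nat.cast_nonneg _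
      calc (({P : ℤ × ℤ | (IsFunction N A D ∧ IsCoprime P.1 P.2 ∧
          ¬ HoldsRat (c N d g k j) d (g + 1) k N A D P) ∧ max (ht P) 1 ≤ B}.ncard : ℕ) : ℝ)
          ≤ C * (⌊B⌋₊ : ℝ) ^ (1 + 1 / ((j : ℝ) + 1)) := h1.trans (hC ⌊B⌋₊ hfl)
        _ ≤ max C 0 * (⌊B⌋₊ : ℝ) ^ (1 + 1 / ((j : ℝ) + 1)) :=
          mul_le_mul_of_nonneg_right (le_max_left _ _) (by positivity)
        _ ≤ max C 0 * B ^ (1 + 1 / ((j : ℝ) + 1) + ε) := by
          refine mul_le_mul_of_nonneg_left ?_ (le_max_right _ _)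
          calc (⌊B⌋₊ : ℝ) ^ (1 + 1 / ((j : ℝ) + 1)) ≤ B ^ (1 + 1 / ((j : ℝ) + 1)) :=
                Real.rpow_le_rpow hflr (Nat.floor_le (by linarith)) (by positivity)
            _ ≤ B ^ (1 + 1 / ((j : ℝ) + 1) + ε) := Real.rpow_le_rpow_of_exponent_le hB (by linarith)
    · refine ⟨0, fun B hB => ?_⟩
      have hemp : {P : ℤ × ℤ | (IsFunction N A D ∧ IsCoprime P.1 P.2 ∧
          ¬ HoldsRat (c N d g k j) d (g + 1) k N A D P) ∧ max (ht P) 1 ≤ B} = ∅ := by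
        rw [Set.eq_empty_iff_forall_notMem]
        rintro P ⟨⟨h, -⟩, -⟩
        exact hR h
      rw [hemp]
      refine ⟨Set.finite_empty, ?_⟩
      rw [Set.ncard_empty, Nat.cast_zero, zero_mul]
  choose E hE1 hE2 using key
  refine ⟨⋂ j, ⋃ y, E j y, ?_, fun ξ hξ N d g κ hg => ?_⟩
  · have h1 : ∀ j : ℕ, dimH (⋂ j, ⋃ y, E j y) ≤ ENNReal.ofReal ((1 + 1 / ((j : ℝ) + 1)) / τ) := by
      intro j
      refine (dimH_mono (Set.iInter_subset _ j)).trans ?_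
      rw [dimH_iUnion]
      exact iSup_le fun y => hE1 j y
    have h2 : Filter.Tendsto (fun j : ℕ => ENNReal.ofReal ((1 + 1 / ((j : ℝ) + 1)) / τ)) Filter.atTop
        (nhds (ENNReal.ofReal ((1 + 0) / τ))) :=
      (ENNReal.continuous_ofReal.tendsto _).comp
        ((tendsto_const_nhds.add tendsto_one_div_add_atTop_nhds_zero_nat).div_const τ)
    have h3 := ge_of_tendsto' h2 h1
    rwa [add_zero] at h3
  · have h1 : ∃ j : ℕ, ∀ y, ξ ∉ E j y := by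
      by_contra hcon
      push Not at hcon
      exact hξ (Set.mem_iInter.2 fun j => Set.mem_iUnion.2 (hcon j))
    obtain ⟨j, hj⟩ := h1
    obtain ⟨g, rfl⟩ : ∃ g' : ℕ, g = g' + 1 := ⟨g - 1, by omega⟩
    obtain ⟨k, hk⟩ := exists_nat_ge κ
    refine ⟨c N d g k j, hc0 N d g k j, fun A D hR M => ?_⟩
    refine (hE2 j (N, d, g, k, A, D) ξ (hj _) M).subset ?_
    rintro P ⟨h1, h2, h3⟩
    refine ⟨?_, hR, h1, not_rat hk h3⟩
    have h4 : 1 ≤ ht P := by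
      rw [ht_natAbs]
      exact_mod_cast one_le_of_coprime h1
    rw [max_eq_left h4]
    exact h2

theorem null_of_dim {E : Set ℝ} (h : dimH E < 1) : volume E = 0 := by
  have h1 : dimH E < ((1 : NNReal) : ENNReal) := by simpa using h
  have h2 := hausdorffMeasure_of_dimH_lt h1
  rw [← hausdorffMeasure_real]
  simpa using h2

/-- **Theorem.** -/
theorem result :
    (∀ (X : Type) [MetricSpace X] (φ : ℤ × ℤ → X),
      (∃ E : Set X, dimH E = 0 ∧ ∀ ξ : X, ξ ∉ E → ∀ τ : ℝ, 0 < τ → ∀ (N d g : ℕ) (κ : ℝ), 0 < g → ∃ c : ℝ, 0 < c ∧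
        ∀ A D : ℤ[X], IsFunction N A D → ∀ M : ℝ,
          (2 ≤ poleCount N D → {P : ℤ × ℤ | IsCoprime P.1 P.2 ∧ dist (φ P) ξ ≤ M * ht P ^ (-τ) ∧
            ¬ HoldsRat c d g κ N A D P}.Finite) ∧
          {t : ℤ | dist (φ (t, 1)) ξ ≤ M * |(t : ℝ)| ^ (-τ) ∧ ¬ HoldsInt c d g κ A D t}.Finite) ∧
      ∀ τ : ℝ, 0 < τ → ∃ E : Set X, dimH E ≤ ENNReal.ofReal (1 / τ) ∧ ∀ ξ : X, ξ ∉ E →
        ∀ (N d g : ℕ) (κ : ℝ), 0 < g → ∃ c : ℝ, 0 < c ∧ ∀ A D : ℤ[X], IsFunction N A D → ∀ M : ℝ,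
          {P : ℤ × ℤ | IsCoprime P.1 P.2 ∧ dist (φ P) ξ ≤ M * ht P ^ (-τ) ∧
            ¬ HoldsRat c d g κ N A D P}.Finite) ∧
    ∀ᵐ ξ : ℝ, ∀ τ : ℝ, 1 < τ → ∀ (N d g : ℕ) (κ : ℝ), 0 < g → ∃ c : ℝ, 0 < c ∧
      ∀ A D : ℤ[X], IsFunction N A D → ∀ M : ℝ,
        {P : ℤ × ℤ | IsCoprime P.1 P.2 ∧ 0 < P.2 ∧ |ξ - P.1 / P.2| ≤ M * (P.2 : ℝ) ^ (-τ) ∧
          ¬ HoldsRat c d g κ N A D P}.Finite := by
  refine ⟨fun X _ φ => ⟨part_one φ, fun τ hτ => part_two φ τ hτ⟩, ?_⟩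
  have key : ∀ q : ℚ, ∃ E : Set ℝ, volume E = 0 ∧ (1 < q → ∀ ξ : ℝ, ξ ∉ E →
      ∀ (N d g : ℕ) (κ : ℝ), 0 < g → ∃ c : ℝ, 0 < c ∧ ∀ A D : ℤ[X], IsFunction N A D → ∀ M : ℝ,
        {P : ℤ × ℤ | IsCoprime P.1 P.2 ∧ dist ((P.1 : ℝ) / P.2) ξ ≤ M * ht P ^ (-(q : ℝ)) ∧
          ¬ HoldsRat c d g κ N A D P}.Finite) := by
    intro q
    by_cases hq : 1 < q
    · have hq1 : (1 : ℝ) < q := by exact_mod_cast hq
      obtain ⟨E, hE, hE'⟩ := part_two (fun P : ℤ × ℤ => (P.1 : ℝ) / P.2) q (by linarith)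
      refine ⟨E, null_of_dim (hE.trans_lt ?_), fun _ => hE'⟩
      rw [← ENNReal.ofReal_one]
      refine (ENNReal.ofReal_lt_ofReal_iff one_pos).2 ?_
      rw [div_lt_one (by linarith)]
      exact hq1
    · exact ⟨∅, measure_empty, fun h => absurd h hq⟩
  choose E hE1 hE2 using key
  have hae : ∀ᵐ ξ : ℝ, ∀ q : ℚ, ξ ∉ E q := ae_all_iff.2 fun q => compl_mem_ae_iff.2 (hE1 q)
  filter_upwards [hae] with ξ hξ τ hτ N d g κ hg
  obtain ⟨q, hq1, hq2⟩ := exists_rat_btwn hτ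
  have hq1' : (1 : ℚ) < q := by exact_mod_cast hq1
  obtain ⟨c, hc, h⟩ := hE2 q hq1' ξ (hξ q) N d g κ hg
  refine ⟨c, hc, fun A D hR M => ?_⟩
  set R : ℝ := |ξ| + |M| + 1 with hRdef
  have hR1 : 1 ≤ R := by
    have := abs_nonneg ξ
    have := abs_nonneg M
    linarith
  refine (h A D hR (|M| * R ^ (q : ℝ))).subset ?_
  rintro ⟨s, t⟩ ⟨h1, h2, h3, h4⟩
  refine ⟨h1, ?_, h4⟩
  simp only at h1 h2 h3 ⊢
  have ht1 : (1 : ℝ) ≤ (t : ℝ) := by exact_mod_cast h2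
  have ht0 : (0 : ℝ) < (t : ℝ) := by linarith
  have h5 : (t : ℝ) ^ (-τ) ≤ (t : ℝ) ^ (-(q : ℝ)) := Real.rpow_le_rpow_of_exponent_le ht1 (by linarith)
  have h6 : (t : ℝ) ^ (-τ) ≤ 1 := Real.rpow_le_one_of_one_le_of_nonpos ht1 (by linarith)
  have h7 : |ξ - s / t| ≤ |M| * (t : ℝ) ^ (-τ) :=
    h3.trans (mul_le_mul_of_nonneg_right (le_abs_self M) (by positivity))
  have h8 : ht (s, t) ≤ R * t := by
    unfold ht
    refine max_le ?_ ?_
    · have h9 : |(s : ℝ) / t| ≤ |ξ| + |M| := by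
        have h10 : |(s : ℝ) / t| ≤ |ξ| + |ξ - s / t| := by
          have := abs_sub_abs_le_abs_sub ((s : ℝ) / t) ξ
          rw [abs_sub_comm] at this
          linarith
        have h11 : |M| * (t : ℝ) ^ (-τ) ≤ |M| := mul_le_of_le_one_right (abs_nonneg M) h6
        linarith
      rw [abs_div, abs_of_pos ht0, div_le_iff₀ ht0] at h9
      refine h9.trans (mul_le_mul_of_nonneg_right (by linarith) ht0.le)
    · rw [abs_of_pos ht0]
      exact le_mul_of_one_le_left ht0.le hR1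
  have h9 : 0 < ht (s, t) := lt_of_lt_of_le ht0 ((le_abs_self _).trans (le_max_right _ _))
  have h10 : (t : ℝ) ^ (-(q : ℝ)) ≤ R ^ (q : ℝ) * ht (s, t) ^ (-(q : ℝ)) := by
    have h11 : (ht (s, t) / R) ^ (q : ℝ) ≤ (t : ℝ) ^ (q : ℝ) := by
      refine Real.rpow_le_rpow (by positivity) ?_ (by linarith)
      rw [div_le_iff₀ (by linarith), mul_comm]
      exact h8
    rw [Real.div_rpow h9.le (by linarith)] at h11
    have h12 : 0 < R ^ (q : ℝ) := Real.rpow_pos_of_pos (by linarith) _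
    have h13 : 0 < ht (s, t) ^ (q : ℝ) := Real.rpow_pos_of_pos h9 _
    have h14 : 0 < (t : ℝ) ^ (q : ℝ) := Real.rpow_pos_of_pos ht0 _
    rw [Real.rpow_neg ht0.le, Real.rpow_neg h9.le, ← div_eq_mul_inv, inv_eq_one_div, div_le_div_iff₀ h14 h13, one_mul]
    rw [div_le_iff₀ h12] at h11
    linarith
  rw [dist_comm, Real.dist_eq]
  calc |ξ - s / t| ≤ |M| * (t : ℝ) ^ (-τ) := h7
    _ ≤ |M| * (R ^ (q : ℝ) * ht (s, t) ^ (-(q : ℝ))) :=
      mul_le_mul_of_nonneg_left (h5.trans h10) (abs_nonneg M)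
    _ = |M| * R ^ (q : ℝ) * ht (s, t) ^ (-(q : ℝ)) := by ring

end Pool.Agent.Results.MP_9a3c31_nt.MembersNearAPoint
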