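import Mathlib
import Pool.Agent.V5helper58.LA.Final

/-!
# Lang and Silverman's lower bound for forms of powers: only the places with split torus matter

`E : y² = x³ + a x + b` is an elliptic curve over a number field `K` of degree at most `D`, with
`a`, `b` integral of height at most `κ (1 + h(j))`.  A finite Galois extension `L` of `K` and a
faithful representation `ρ` of its group by integral matrices of size `g` define an abelian variety
`A` over `K`, the form of `E ^ g` with `A(K) = {P ∈ E(L) ^ g | ρ(σ) σ(P) = P for all σ}`
(`FixedPt ρ P`); for `g = 1` these are `E` and its quadratic twists.  A symmetric positive definite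
integral matrix `M` with `ρ(σ)ᵀ M ρ(σ) = M` (`Polar ρ M`) is a polarization of `A` over `K`; the
corresponding absolute canonical height is `chatM M P / [L : ℚ]`.

`NotSplit a b ρ w` says that `w` is a place of `L` not dividing six with `|j|_w > 1` such that the
toric part of `A` over the completion `K_v` of `K` below `w` is not a split torus: some `τ` in the
decomposition group at `w` acts non-trivially on the lattice `ℤ ^ g` of its cocharacters, by
`ε ρ(σ)`, where `σ` is the restriction of `τ` to `L` and `ε = τ(√(-2ab)) / √(-2ab)`.  For `g = 1`:
the twist has non-split multiplicative or additive reduction at `v`.  In general this is so for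
example if `E` has split multiplicative reduction at `v` and `v` does not split completely in `L`.

`BadAt a b w` says that the place `w` of `L` is a place of bad reduction of `E` over `L`, or that
`2 (4 a³ + 27 b²)` is a unit at `w` and some `σ ≠ 1` is in the inertia group of `w`.
`SzpiroSplit σ δ s M₀ a b ρ` says that, leaving out at most `s` places of `K`, the places dividing
`M₀`, and a part of size at most `δ h(j)`, the sum of `log |j|_v` over the places `v` of `K` with
`|j|_v > 1` is at most `σ` times the sum of `log N w` over a finite set of places `w` with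
`BadAt a b w` and of `log |j|_w` over a finite set of places `w` with `NotSplit a b ρ w`.  So the
number and the Szpiro ratio of the places where the torus is not split are not restricted.

`Pts L a b` is the group of points over `L`, `sht P` the height of the `x`-coordinate, `chat P` the
canonical height, the limit of `sht (2 ^ k P) / 4 ^ k` (`ChatLim`), and `RamPrimes K T` says that
for each prime `v` in `T` there is `σ ≠ 1` in the inertia group.  `logNorms T` is the sum of
`log N v`, `v ∈ T`, and `absH` is the absolute logarithmic height.  `DenseOrbit ρ P` says that no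
non-zero homomorphism from `E ^ g` to `E` given by integers kills, modulo torsion, all `φ(P)`, `φ`
an integral matrix commuting with `ρ`, that is an endomorphism of `A` over `K`.

Proof. The decomposition group at `w` acts on the group of components of `E` over `L_w` by the sign
`ε`; so all coordinates of `P - ε ρ(σ) P` reduce to the connected component of the identity at all
the places `w` with the same pair `(σ, ε)`.  Its height is at most four times that of `P`, it is not
torsion if the orbit of `P` is dense, and the canonical local pairings of its multiples at these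
places are at least `(log |j|_w) / 6`.
-/

set_option autoImplicit false

open Pool.Agent.TH910.LS Pool.Agent.Y725.LS Pool.Agent.V5helper58.LA NumberField IsDedekindDomain

theorem Pool.Agent.Results.MP_9a3c31_nt.OnlySplitPlacesMatter.result
    (D g s : ℕ) (hg : 0 < g) (κ σ : ℝ) (hκ : 0 ≤ κ) :
    ∃ c δ : ℝ, 0 < c ∧ 0 < δ ∧ ∀ M₀ : ℕ, M₀ ≠ 0 → ∃ A c₀ : ℝ, 0 < c₀ ∧
    ∀ (K : Type) [Field K] [NumberField K], Module.finrank ℚ K ≤ D →
    ∀ a b : 𝓞 K, 4 * (a : K) ^ 3 + 27 * (b : K) ^ 2 ≠ 0 →
      absH (a : K) + absH (b : K) ≤ κ * (1 + absH (jinv (a : K) b)) →
    ∀ (L : Type) [Field L] [NumberField L] [Algebra K L] [IsGalois K L] [DecidableEq L],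
      ChatLim L a b ∧
      ∀ (ρ : (L ≃ₐ[K] L) →* Matrix (Fin g) (Fin g) ℤ) (M : Matrix (Fin g) (Fin g) ℤ)
        (P : Fin g → Pts L a b) (T : Finset (HeightOneSpectrum (𝓞 L))),
        SzpiroSplit σ δ s M₀ a b ρ → Faithful ρ → Polar ρ M → FixedPt ρ P → DenseOrbit ρ P →
        RamPrimes K T →
          (if A < absH (jinv (a : K) b) then c else c₀) *
              (1 + absH (jinv (a : K) b) + logNorms T / Module.finrank ℚ L) ≤
            chatM M P / Module.finrank ℚ L := by
  obtain ⟨c, δ, hc, hδ, h⟩ := split_main D g s hg κ σ hκ
  refine ⟨c, δ, hc, hδ, fun M₀ hM₀ => ?_⟩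
  obtain ⟨A, c₀, hc₀, h⟩ := h M₀ hM₀
  exact ⟨A, c₀, hc₀, fun K _ _ hK a b hab hκ L _ _ _ _ _ => ⟨chatLim a b hab L,
    fun ρ M P T hSz hf hM hP hPd hT => h K hK a b hab hκ L ρ M P T hSz hf hM hP hPd hT⟩⟩
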